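import Pool.Agent.X185.SOL.Lang

/-!
# Quasiregular normal forms with sublinear fellow traveller property for lattices in Sol

For every `M ∈ GL(2,ℤ)` with two real eigenvalues, none of them `±1`, the torus bundle group
`G_M = ℤ² ⋊_M ℤ` has, with respect to the generators `e₁, e₂, t`, a prefix-closed (in particular
quasiregular) normal form with the `log(n)`-fellow traveler property.

All definitions are in `Pool.Agent.X185.SOL.Defs` (words, word metric, normal forms, `s_L`, `⪯`,
`≪`, quasiregular) and `Pool.Agent.X185.SOL.Torus` (the group `TorusGroup M` of pairs `(v, k)`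
with `(v, k)(w, l) = (v + M^k w, k + l)`).
-/

set_option autoImplicit false

namespace Pool.Agent.Results.MP_df87fb_al.LogNormalForm

open Pool.Agent.X185.SOL Polynomial

/-- `M` has two real eigenvalues (with multiplicity), neither of them `1` or `-1`. -/
def RealEigenvaluesNotUnits (M : Matrix.GeneralLinearGroup (Fin 2) ℤ) : Prop :=
  ∃ a b : ℝ, a ≠ 1 ∧ a ≠ -1 ∧ b ≠ 1 ∧ b ≠ -1 ∧
    ((M : Matrix (Fin 2) (Fin 2) ℤ).map (Int.castRingHom ℝ)).charpoly = (X - C a) * (X - C b)

theorem exists_T {M : Matrix.GeneralLinearGroup (Fin 2) ℤ} (h : RealEigenvaluesNotUnits M) :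
    ∃ T : ℕ, 3 ≤ T ∧ ∀ (w : Fin 2 → ℤ) (k : ℤ),
      act M (2 * (k - 1)) w + act M (2 * (k + 1)) w = T • act M (2 * k) w := by
  obtain ⟨a, b, ha1, ha2, hb1, hb2, hch⟩ := h
  set A : Matrix (Fin 2) (Fin 2) ℤ := (M : Matrix (Fin 2) (Fin 2) ℤ) with hA
  have hdet : A.det = 1 ∨ A.det = -1 := by
    have : IsUnit A.det := (Matrix.isUnit_iff_isUnit_det A).1 M.isUnit
    exact Int.isUnit_iff.1 this
  rw [Matrix.charpoly_fin_two] at hch
  have hdet' : (A.map (Int.castRingHom ℝ)).det = (A.det : ℝ) := by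
    rw [Matrix.det_fin_two, Matrix.det_fin_two]
    simp
  have htr' : (A.map (Int.castRingHom ℝ)).trace = (A.trace : ℝ) := by
    rw [Matrix.trace_fin_two, Matrix.trace_fin_two]
    simp
  rw [hdet', htr'] at hch
  set τ : ℤ := A.trace with hτ
  set δ : ℤ := A.det with hδ
  have e0 := congrArg (Polynomial.eval 0) hch
  have e1 := congrArg (Polynomial.eval 1) hch
  simp only [eval_add, eval_sub, eval_pow, eval_X, eval_mul, eval_C] at e0 e1
  have hab : (δ : ℝ) = a * b := by linarith
  have hs : (τ : ℝ) = a + b := by linarith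
  have hne1 : (1 : ℝ) - τ + δ ≠ 0 := by
    rw [hs, hab]
    have : (1 - a) * (1 - b) ≠ 0 := mul_ne_zero (sub_ne_zero.2 ha1.symm) (sub_ne_zero.2 hb1.symm)
    intro h
    apply this
    linarith
  have hne2 : (1 : ℝ) + τ + δ ≠ 0 := by
    rw [hs, hab]
    have : (a - -1) * (b - -1) ≠ 0 := mul_ne_zero (sub_ne_zero.2 ha2) (sub_ne_zero.2 hb2)
    intro h
    apply this
    linarith
  have hdisc : (0 : ℝ) ≤ τ ^ 2 - 4 * δ := by
    rw [hs, hab]
    nlinarith [sq_nonneg (a - b)]
  have hne1' : 1 - τ + δ ≠ 0 := by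
    intro h
    apply hne1
    exact_mod_cast h
  have hne2' : 1 + τ + δ ≠ 0 := by
    intro h
    apply hne2
    exact_mod_cast h
  have hdisc' : 0 ≤ τ ^ 2 - 4 * δ := by exact_mod_cast hdisc
  have hT3 : 3 ≤ τ ^ 2 - 2 * δ := by
    rcases hdet with h | h
    · rw [h] at hne1' hne2' hdisc' ⊢
      by_contra hlt
      have h1 : τ ≤ 2 := by nlinarith
      have h2 : -2 ≤ τ := by nlinarith
      interval_cases τ <;> omega
    · rw [h] at hne1' hne2' hdisc' ⊢
      by_contra hlt
      have h1 : τ ≤ 2 := by nlinarith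
      have h2 : -2 ≤ τ := by nlinarith
      interval_cases τ <;> omega
  obtain ⟨T, hT⟩ := Int.eq_ofNat_of_zero_le (show 0 ≤ τ ^ 2 - 2 * δ by omega)
  refine ⟨T, by omega, fun w k => ?_⟩
  have hδ2 : δ ^ 2 = 1 := by rcases hdet with h | h <;> rw [h] <;> norm_num
  have hCH : 1 + A * (A * (A * A)) = (T : ℤ) • (A * A) := by
    have h1 : (T : ℤ) = (A 0 0 + A 1 1) ^ 2 - 2 * (A 0 0 * A 1 1 - A 0 1 * A 1 0) := by
      rw [← Matrix.trace_fin_two, ← Matrix.det_fin_two]
      exact hT.symm
    have h2 : (A 0 0 * A 1 1 - A 0 1 * A 1 0) ^ 2 = 1 := by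
      rw [← Matrix.det_fin_two]; exact hδ2
    ext i j
    rw [h1]
    fin_cases i <;> fin_cases j
    · simp [Matrix.mul_apply, Fin.sum_univ_two]
      linear_combination -h2
    · simp [Matrix.mul_apply, Fin.sum_univ_two]
      ring
    · simp [Matrix.mul_apply, Fin.sum_univ_two]
      ring
    · simp [Matrix.mul_apply, Fin.sum_univ_two]
      linear_combination -h2
  have hact1 : ∀ v, act M 1 v = A.mulVec v := by
    intro v
    unfold act
    rw [zpow_one]
  have hact2 : ∀ v, act M 2 v = (A * A).mulVec v := by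
    intro v
    rw [show (2 : ℤ) = 1 + 1 by norm_num, ← act_act, hact1, hact1, Matrix.mulVec_mulVec]
  have hact4 : ∀ v, act M 4 v = (A * (A * (A * A))).mulVec v := by
    intro v
    rw [show (4 : ℤ) = 1 + (1 + 2) by norm_num, ← act_act, ← act_act, hact1, hact1, hact2,
      Matrix.mulVec_mulVec, Matrix.mulVec_mulVec, mul_assoc]
  have hmain : ∀ v, v + act M 4 v = T • act M 2 v := by
    intro v
    have := congrArg (fun B => Matrix.mulVec B v) hCH
    simp only [Matrix.add_mulVec, Matrix.one_mulVec, Matrix.smul_mulVec] at this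
    rw [hact4, hact2, this, natCast_zsmul]
  have h1 : act M (2 * (k + 1)) w = act M 4 (act M (2 * (k - 1)) w) := by
    rw [act_act]; congr 1; ring
  have h2 : act M (2 * k) w = act M 2 (act M (2 * (k - 1)) w) := by
    rw [act_act]; congr 1; ring
  rw [h1, h2]
  exact hmain _

/-- For every `M ∈ GL(2,ℤ)` with two real eigenvalues different from `±1`, the language `lang`
over the generators `e₁, e₂, t` of `G_M = ℤ² ⋊_M ℤ` is a prefix-closed, hence quasiregular, normal
form with the `log(n + 1)`-fellow traveler property (and `log(n + 1) ≪ n`). -/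
theorem result (M : Matrix.GeneralLinearGroup (Fin 2) ℤ) (hM : RealEigenvaluesNotUnits M) :
    ∃ (x : Fin 3 → TorusGroup M) (L : Set (Word 3)),
      Subgroup.closure (Set.range x) = ⊤ ∧ IsNormalForm x L ∧ PrefixClosed L ∧ Quasiregular L ∧
      FellowTraveler x L (fun n => Real.log (n + 1)) := by
  obtain ⟨T, hT, hP⟩ := exists_T hM
  have hC : ∀ (i : Fin 2) (a : ℤ),
      Reach (gen M) ((4 * T + 16) * (Nat.log 2 a.natAbs + 1)) (tr M (a • e i)) :=
    fun i a => reach_zsmul (reach_e i) hT (hP (e i)) a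
  exact ⟨gen M, lang, closure_gen, lang_normal, lang_prefixClosed,
    quasiregular_of_prefixClosed lang_prefixClosed, log_mono, log_nonneg', log_muchLess,
    preceq_of (sL_le hC)⟩

end Pool.Agent.Results.MP_df87fb_al.LogNormalForm
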